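import Pool.Agent.U273.FlowerDet.Rot
import Pool.Agent.U273.FlowerDet.Det

/-!
For every `R`-disjoint graph `G` with flower decomposition `B(G), R_1, ..., R_k`, the determinant of
the adjacency matrix of `G` is the product of the determinants of the adjacency matrices of the
graphs induced on the parts.
-/

set_option autoImplicit false
set_option linter.unusedSectionVars false
set_option linter.unusedVariables false
set_option linter.unusedSimpArgs false

namespace Pool.Agent.Results.MP_079569_co.FlowerDeterminant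

open Finset Pool.Agent.U273.FlowerDet

open scoped Classical

variable {V : Type*} [Fintype V]

/-- `M` is a matching of `G`: a set of edges of `G` no two of which share a vertex. -/
def IsMatch (G : SimpleGraph V) (M : Finset (Sym2 V)) : Prop :=
  (∀ e ∈ M, e ∈ G.edgeSet) ∧ ∀ e ∈ M, ∀ f ∈ M, ∀ v, v ∈ e → v ∈ f → e = f

/-- `M` is a maximum matching of `G`. -/
def IsMaxMatch (G : SimpleGraph V) (M : Finset (Sym2 V)) : Prop :=
  IsMatch G M ∧ ∀ M', IsMatch G M' → M'.card ≤ M.card

/-- The closed walk `c` is an `M`-blossom: a cycle with `2t+1` vertices, exactly `t` of whose edges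
lie in `M`. -/
def IsBlossom {G : SimpleGraph V} (M : Finset (Sym2 V)) {v : V} (c : G.Walk v v) : Prop :=
  c.IsCycle ∧ ∃ t, c.length = 2 * t + 1 ∧ (c.edges.toFinset ∩ M).card = t

/-- `b` is the base of the blossom `c`: the vertex of `c` not covered by the edges of `c` lying in
`M`. -/
def IsBase {G : SimpleGraph V} (M : Finset (Sym2 V)) {v : V} (c : G.Walk v v) (b : V) : Prop :=
  b ∈ c.support ∧ ∀ e ∈ c.edges, e ∈ M → b ∉ e

/-- `p` is an `M`-stem of the blossom `c` with base `b`: a path of even length, alternating with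
respect to `M`, from `b` to a vertex left uncovered by `M`, that meets `c` only at `b`. -/
def IsStem {G : SimpleGraph V} (M : Finset (Sym2 V)) {v b u : V} (c : G.Walk v v) (p : G.Walk b u) :
    Prop :=
  p.IsPath ∧ Even p.length ∧ p.edges.IsChain (fun e f => (e ∈ M ↔ f ∉ M)) ∧
    (∀ e ∈ M, u ∉ e) ∧ ∀ x ∈ p.support, x ∈ c.support → x = b

/-- The set of odd cycles of `G`, each given by its set of edges. -/
noncomputable def oddCycles (G : SimpleGraph V) : Finset (Finset (Sym2 V)) :=
  univ.filter (fun C => ∃ (v : V) (c : G.Walk v v), c.IsCycle ∧ Odd c.length ∧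
    c.edges.toFinset = C)

/-- The reach set of the cycle with edge set `C`: the union of the vertex sets of all `M`-flowers
whose blossom is this cycle, over all maximum matchings `M`. -/
def reach (G : SimpleGraph V) (C : Finset (Sym2 V)) : Set V :=
  {x | ∃ (M : Finset (Sym2 V)) (v : V) (c : G.Walk v v) (b u : V) (p : G.Walk b u),
    IsMaxMatch G M ∧ c.edges.toFinset = C ∧ IsBlossom M c ∧ IsBase M c b ∧ IsStem M c p ∧
      (x ∈ c.support ∨ x ∈ p.support)}

/-- `G` is `R`-disjoint. -/
def RDisjoint (G : SimpleGraph V) : Prop :=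
  (oddCycles G).Nonempty ∧ (∀ C ∈ oddCycles G, (reach G C).Nonempty) ∧
    ∀ C ∈ oddCycles G, ∀ C' ∈ oddCycles G, C ≠ C' → Disjoint (reach G C) (reach G C')

/-- The set `B(G)` of the vertices outside all reach sets. -/
def rest (G : SimpleGraph V) : Set V := {x | ∀ C ∈ oddCycles G, x ∉ reach G C}

/-! ### Matchings and involutions -/

/-- The partner of a vertex. -/
noncomputable def mate (M : Finset (Sym2 V)) (v : V) : V :=
  if h : ∃ w, s(v, w) ∈ M then Classical.choose h else v

variable {G : SimpleGraph V}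

lemma mate_iff {M : Finset (Sym2 V)} (hM : IsMatch G M) {v w : V} :
    s(v, w) ∈ M ↔ (mate M v = w ∧ v ≠ w) := by
  constructor
  · intro h
    have hex : ∃ w, s(v, w) ∈ M := ⟨w, h⟩
    have h1 : s(v, Classical.choose hex) ∈ M := Classical.choose_spec hex
    have h2 := hM.2 _ h1 _ h v (by simp) (by simp)
    have h3 : Classical.choose hex = w := by
      rcases Sym2.eq_iff.1 h2 with ⟨_, h⟩ | ⟨h, h'⟩
      · exact h
      · exact h'.trans h
    refine ⟨?_, ?_⟩
    · rw [mate, dif_pos hex]; exact h3
    · have h4 := hM.1 _ h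
      rw [SimpleGraph.mem_edgeSet] at h4
      exact h4.ne
  · rintro ⟨h, hne⟩
    by_cases hex : ∃ w, s(v, w) ∈ M
    · rw [mate, dif_pos hex] at h
      rw [← h]; exact Classical.choose_spec hex
    · rw [mate, dif_neg hex] at h
      exact absurd h hne

lemma mate_isInv {M : Finset (Sym2 V)} (hM : IsMatch G M) : IsInv G (mate M) := by
  constructor
  · intro v
    by_cases h : mate M v = v
    · rw [h, h]
    · have h1 : s(v, mate M v) ∈ M := (mate_iff hM).2 ⟨rfl, fun h' => h h'.symm⟩
      rw [Sym2.eq_swap] at h1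
      exact ((mate_iff hM).1 h1).1
  · intro v h
    have h1 : s(v, mate M v) ∈ M := (mate_iff hM).2 ⟨rfl, fun h' => h h'.symm⟩
    exact hM.1 _ h1

lemma eIn_mate {M : Finset (Sym2 V)} (hM : IsMatch G M) (e : Sym2 V) : eIn (mate M) e ↔ e ∈ M := by
  induction e using Sym2.ind with
  | _ u v => rw [eIn_iff (mate_isInv hM), mate_iff hM]

/-- A set of pairwise disjoint edges covers twice as many vertices. -/
lemma card_cover {F : Finset (Sym2 V)} (hF : IsMatch G F) :
    (F.biUnion Sym2.toFinset).card = 2 * F.card := by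
  rw [card_biUnion]
  · rw [sum_const_nat (m := 2), mul_comm]
    intro e he
    apply Sym2.card_toFinset_of_not_isDiag
    exact G.not_isDiag_of_mem_edgeSet (hF.1 e he)
  · intro e he f hf hne
    rw [Function.onFun, disjoint_left]
    intro v hv hv'
    rw [Sym2.mem_toFinset] at hv hv'
    exact hne (hF.2 e he f hf v hv hv')

lemma card_match {M : Finset (Sym2 V)} (hM : IsMatch G M) :
    2 * M.card + (fixed (mate M)).card = Fintype.card V := by
  rw [← card_cover hM]
  have h1 : M.biUnion Sym2.toFinset = univ \ fixed (mate M) := by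
    ext v
    simp only [mem_biUnion, Sym2.mem_toFinset, mem_sdiff, mem_univ, true_and, mem_fixed]
    constructor
    · rintro ⟨e, he, hv⟩ h
      obtain ⟨w, rfl⟩ := hv
      have := (mate_iff hM).1 he
      exact this.2 (h ▸ this.1)
    · intro h
      exact ⟨s(v, mate M v), (mate_iff hM).2 ⟨rfl, fun h' => h h'.symm⟩, by simp⟩
  rw [h1, card_sdiff_of_subset (subset_univ _), card_univ]
  have : (fixed (mate M)).card ≤ Fintype.card V := card_le_univ _
  omega

/-- The edges of an involution. -/
noncomputable def edgesOf (m : V → V) : Finset (Sym2 V) := univ.filter (fun e => eIn m e)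

lemma mem_edgesOf {m : V → V} {e : Sym2 V} : e ∈ edgesOf m ↔ eIn m e := by simp [edgesOf]

lemma edgesOf_match {m : V → V} (hm : IsInv G m) : IsMatch G (edgesOf m) := by
  constructor
  · intro e he
    rw [mem_edgesOf] at he
    obtain ⟨v, hv, rfl⟩ := he
    exact hm.adj v hv
  · intro e he f hf v hve hvf
    obtain ⟨w, rfl⟩ := hve
    obtain ⟨w', rfl⟩ := hvf
    rw [mem_edgesOf, eIn_iff hm] at he hf
    rw [← he.1, ← hf.1]

lemma mate_edgesOf {m : V → V} (hm : IsInv G m) : mate (edgesOf m) = m := by
  funext v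
  by_cases h : m v = v
  · by_contra hne
    rw [h] at hne
    have h1 := (mate_iff (edgesOf_match hm) (v := v)).2 ⟨rfl, fun h' => hne h'.symm⟩
    rw [mem_edgesOf, eIn_iff hm] at h1
    exact h1.2 (h.symm.trans h1.1)
  · have h1 : s(v, m v) ∈ edgesOf m := by
      rw [mem_edgesOf]; exact ⟨v, h, rfl⟩
    exact ((mate_iff (edgesOf_match hm)).1 h1).1

lemma isMax_mate {M : Finset (Sym2 V)} (hM : IsMaxMatch G M) : IsMax G (mate M) := by
  refine ⟨mate_isInv hM.1, ?_⟩
  intro m' hm'
  have h1 := hM.2 _ (edgesOf_match hm')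
  have h2 := card_match hM.1
  have h3 := card_match (edgesOf_match hm')
  rw [mate_edgesOf hm'] at h3
  omega

lemma isMaxMatch_edgesOf {m : V → V} (hm : IsMax G m) : IsMaxMatch G (edgesOf m) := by
  refine ⟨edgesOf_match hm.1, ?_⟩
  intro M' hM'
  have h1 := hm.2 _ (mate_isInv hM')
  have h2 := card_match hM'
  have h3 := card_match (edgesOf_match hm.1)
  rw [mate_edgesOf hm.1] at h3
  omega

/-! ### Cycles -/

lemma cycle_card {v : V} {c : G.Walk v v} (hc : c.IsCycle) : c.support.toFinset.card = c.length := by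
  have h1 : c.support.toFinset = c.support.tail.toFinset := by
    ext u
    rw [List.mem_toFinset, List.mem_toFinset]
    constructor
    · intro h
      rw [SimpleGraph.Walk.mem_support_iff] at h
      rcases h with rfl | h
      · exact SimpleGraph.Walk.end_mem_tail_support hc.not_nil
      · exact h
    · intro h; exact List.mem_of_mem_tail h
  rw [h1, List.toFinset_card_of_nodup hc.support_nodup, List.length_tail,
    SimpleGraph.Walk.length_support]
  omega

lemma cycle_mem {v : V} {c : G.Walk v v} (hc : c.IsCycle) (u : V) :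
    u ∈ c.support ↔ ∃ e ∈ c.edges.toFinset, u ∈ e := by
  rw [SimpleGraph.Walk.mem_support_iff_exists_mem_edges_of_not_nil hc.not_nil]
  simp

lemma cycle_support_eq {v v' : V} {c : G.Walk v v} {c' : G.Walk v' v'} (hc : c.IsCycle)
    (hc' : c'.IsCycle) (h : c.edges.toFinset = c'.edges.toFinset) :
    c.support.toFinset = c'.support.toFinset := by
  ext u
  rw [List.mem_toFinset, List.mem_toFinset, cycle_mem hc, cycle_mem hc', h]

/-- In a blossom, every vertex other than the base is matched inside the blossom. -/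
lemma blossom_mate {M : Finset (Sym2 V)} (hM : IsMatch G M) {v : V} {c : G.Walk v v} {b : V}
    (hc : IsBlossom M c) (hb : IsBase M c b) :
    ∀ u ∈ c.support.toFinset, u ≠ b → mate M u ≠ u ∧ s(u, mate M u) ∈ c.edges.toFinset ∧
      mate M u ∈ c.support.toFinset := by
  obtain ⟨hcyc, t, hlen, ht⟩ := hc
  set F := c.edges.toFinset ∩ M with hF
  have hFM : IsMatch G F := by
    constructor
    · intro e he; exact hM.1 e (mem_inter.1 he).2
    · intro e he f hf; exact hM.2 e (mem_inter.1 he).2 f (mem_inter.1 hf).2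
  have h1 := card_cover hFM
  have h2 : F.biUnion Sym2.toFinset ⊆ c.support.toFinset.erase b := by
    intro u hu
    simp only [mem_biUnion, Sym2.mem_toFinset] at hu
    obtain ⟨e, he, hue⟩ := hu
    rw [hF, mem_inter] at he
    rw [mem_erase]
    refine ⟨?_, ?_⟩
    · rintro rfl
      exact hb.2 e (by simpa using he.1) he.2 hue
    · rw [List.mem_toFinset, cycle_mem hcyc]
      exact ⟨e, he.1, hue⟩
  have h3 : F.biUnion Sym2.toFinset = c.support.toFinset.erase b := by
    apply eq_of_subset_of_card_le h2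
    rw [h1, card_erase_of_mem (by simpa using hb.1), cycle_card hcyc, hlen, ht]
    omega
  intro u hu hub
  have h4 : u ∈ F.biUnion Sym2.toFinset := by rw [h3, mem_erase]; exact ⟨hub, hu⟩
  simp only [mem_biUnion, Sym2.mem_toFinset] at h4
  obtain ⟨e, he, w, rfl⟩ := h4
  rw [hF, mem_inter] at he
  have h5 := (mate_iff hM).1 he.2
  rw [h5.1]
  refine ⟨h5.2.symm, he.1, ?_⟩
  rw [List.mem_toFinset, cycle_mem hcyc]
  exact ⟨_, he.1, by simp⟩

/-- A stem, read from its exposed end, is an even alternating path. -/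
lemma stem_EvP {m : V → V} (hm : IsInv G m) : ∀ (n : ℕ) {b u : V} (p : G.Walk b u),
    p.length = 2 * n → p.IsPath → p.edges.IsChain (fun e f => (eIn m e ↔ ¬ eIn m f)) → m u = u →
    EvP G m ∅ u b p.support.toFinset ∧ (∀ e ∈ p.edges.head?, eIn m e) := by
  intro n
  induction n with
  | zero =>
    intro b u p hp _ _ _
    have : p.length = 0 := by omega
    have hbu := SimpleGraph.Walk.eq_of_length_eq_zero this
    subst hbu
    rw [SimpleGraph.Walk.length_eq_zero_iff, ← SimpleGraph.Walk.eq_nil_iff_nil] at this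
    subst this
    refine ⟨?_, by simp⟩
    simp only [SimpleGraph.Walk.support_nil, List.toFinset_cons, List.toFinset_nil]
    exact EvP.nil
  | succ n ih =>
    intro b u p hp hpath hchain hu
    match p, hp, hpath, hchain with
    | .nil, hp, _, _ => simp at hp
    | .cons h1 .nil, hp, _, _ => simp at hp; omega
    | .cons (v := x1) h1 (.cons (v := x2) h2 p'), hp, hpath, hchain =>
      simp only [SimpleGraph.Walk.length_cons] at hp
      rw [SimpleGraph.Walk.cons_isPath_iff, SimpleGraph.Walk.cons_isPath_iff] at hpath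
      obtain ⟨⟨hp', hx1⟩, hb⟩ := hpath
      simp only [SimpleGraph.Walk.edges_cons] at hchain ⊢
      rw [List.isChain_cons_cons] at hchain
      obtain ⟨hc1, hc2⟩ := hchain
      have hc3 := hc2.tail
      simp only [List.tail_cons] at hc3
      obtain ⟨ih1, ih2⟩ := ih p' (by omega) hp' hc3 hu
      have hne2 : ¬ eIn m s(x1, x2) := by
        cases hpe : p'.edges with
        | nil =>
          have hl : p'.length = 0 := by rw [← SimpleGraph.Walk.length_edges, hpe]; rfl
          have hbu := SimpleGraph.Walk.eq_of_length_eq_zero hl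
          subst hbu
          rw [eIn_iff hm]
          rintro ⟨h, hne⟩
          apply hne
          rw [← hm.inv x1, h, hu]
        | cons e3 l =>
          rw [hpe, List.isChain_cons_cons] at hc2
          have h3 : eIn m e3 := ih2 e3 (by rw [hpe]; simp)
          intro h4
          exact (hc2.1.1 h4) h3
      have he1 : eIn m s(b, x1) := hc1.2 hne2
      refine ⟨?_, by simpa using he1⟩
      rw [eIn_iff hm] at he1
      have hmx1 : m x1 = b := by rw [← he1.1, hm.inv]
      have h5 := EvP.cons ih1 h2.symm (by simpa using hx1) (by simp) (by rw [hmx1]; exact he1.2)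
      rw [hmx1] at h5
      have h6 : (SimpleGraph.Walk.cons h1 (SimpleGraph.Walk.cons h2 p')).support.toFinset =
          insert x1 (insert b p'.support.toFinset) := by
        simp only [SimpleGraph.Walk.support_cons, List.toFinset_cons]
        exact Finset.insert_comm _ _ _
      rw [h6]; exact h5

/-- A flower gives a good matching and an alternating path from the base. -/
lemma flower_good {M : Finset (Sym2 V)} (hM : IsMaxMatch G M) {v b u : V} {c : G.Walk v v}
    {p : G.Walk b u} (hc : IsBlossom M c) (hb : IsBase M c b) (hp : IsStem M c p) :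
    ∃ m', Good G c.edges.toFinset c.support.toFinset m' b ∧
      EvP G m' c.support.toFinset b u p.support.toFinset := by
  obtain ⟨hp1, ⟨n, hp2⟩, hp3, hp4, hp5⟩ := hp
  have hm := isMax_mate hM
  have hmu : mate M u = u := by
    by_contra h
    have h1 := (mate_iff hM.1 (v := u)).2 ⟨rfl, fun h' => h h'.symm⟩
    exact hp4 _ h1 (by simp)
  have hch : p.edges.IsChain (fun e f => (eIn (mate M) e ↔ ¬ eIn (mate M) f)) := by
    refine List.IsChain.imp ?_ hp3
    intro e f h
    rw [eIn_mate hM.1, eIn_mate hM.1]; exact h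
  obtain ⟨h1, -⟩ := stem_EvP hm.1 n p (by omega) hp1 hch hmu
  obtain ⟨m', q, h2, h3, h4, h5, h6, -, -, -, -, h7, -⟩ := h1.switch hm.1 hmu
  have hmax : IsMax G m' := hm.of_card h2 (card_fixed_switch hm.1 hmu h1 h3 h5 h6).le
  refine ⟨m', ⟨hmax, by simpa using hb.1, h5, ?_⟩, h7 _ ?_⟩
  · intro w hw hwb
    have hwS : w ∉ p.support.toFinset := by
      intro h
      exact hwb (hp5 w (by simpa using h) (by simpa using hw))
    rw [h3 w hwS]
    exact blossom_mate hM.1 hc hb w hw hwb
  · intro w hw hwc
    exact hp5 w (by simpa using hw) (by simpa using hwc)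

/-- A good matching and an alternating path from the base give a flower. -/
lemma good_flower {v0 : V} {c : G.Walk v0 v0} (hcyc : c.IsCycle) {t : ℕ}
    (hlen : c.length = 2 * t + 1) {m : V → V} {v z : V} {S : Finset V}
    (hm : Good G c.edges.toFinset c.support.toFinset m v)
    (hS : EvP G m c.support.toFinset v z S) :
    ∃ (M : Finset (Sym2 V)) (p : G.Walk v z), IsMaxMatch G M ∧ IsBlossom M c ∧ IsBase M c v ∧
      IsStem M c p ∧ ∀ x, x ∈ p.support ↔ x ∈ S := by
  obtain ⟨m', p, h2, h3, h4, h5, h6, h7, h8, h9, h10, -, -⟩ := hS.switch hm.max.1 hm.mv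
  have hmax : IsMax G m' := hm.max.of_card h2 (card_fixed_switch hm.max.1 hm.mv hS h3 h5 h6).le
  have hav := hS.avoid hm.max.1 hm.closed
  have hM := isMaxMatch_edgesOf hmax
  have hvS := hS.root_mem
  have hbase : ∀ e ∈ c.edges, e ∈ edgesOf m' → v ∉ e := by
    rintro e he heM ⟨w, rfl⟩
    rw [mem_edgesOf, eIn_iff h2] at heM
    have hw : w ∈ c.support.toFinset := by
      rw [List.mem_toFinset]; exact c.snd_mem_support_of_mem_edges he
    have hwS : w ∈ S := by rw [← heM.1]; exact h4 v hvS
    exact heM.2 (hav w hwS hw).symm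
  refine ⟨edgesOf m', p, hM, ⟨hcyc, t, hlen, ?_⟩, ⟨by simpa using hm.vC, hbase⟩,
    ⟨h7, h8, ?_, ?_, ?_⟩, h9⟩
  · have hFM : IsMatch G (c.edges.toFinset ∩ edgesOf m') := by
      constructor
      · intro e he; exact hM.1.1 e (mem_inter.1 he).2
      · intro e he f hf; exact hM.1.2 e (mem_inter.1 he).2 f (mem_inter.1 hf).2
    have h11 := card_cover hFM
    have h12 : (c.edges.toFinset ∩ edgesOf m').biUnion Sym2.toFinset =
        c.support.toFinset.erase v := by
      ext u
      simp only [mem_biUnion, Sym2.mem_toFinset, mem_erase, mem_inter]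
      constructor
      · rintro ⟨e, ⟨he, heM⟩, hue⟩
        refine ⟨?_, ?_⟩
        · rintro rfl
          exact hbase e (by simpa using he) heM hue
        · rw [List.mem_toFinset, cycle_mem hcyc]; exact ⟨e, he, hue⟩
      · rintro ⟨huv, hu⟩
        have h13 := hm.mC u hu huv
        have huS : u ∉ S := fun h => huv (hav u h hu)
        refine ⟨s(u, m u), ⟨h13.2.1, ?_⟩, by simp⟩
        rw [mem_edgesOf, eIn_iff h2, h3 u huS]
        exact ⟨rfl, h13.1.symm⟩
    rw [h12, card_erase_of_mem hm.vC, cycle_card hcyc, hlen] at h11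
    omega
  · refine List.IsChain.imp ?_ h10
    intro e f h
    rw [mem_edgesOf, mem_edgesOf]; exact h
  · rintro e he ⟨w, rfl⟩
    rw [mem_edgesOf, eIn_iff h2, h5] at he
    exact he.2 he.1
  · intro x hx hxc
    exact hav x ((h9 x).1 hx) (by simpa using hxc)

/-- The reach set in terms of involutions. -/
lemma reach_eq {v0 : V} {c : G.Walk v0 v0} (hcyc : c.IsCycle) (hodd : Odd c.length)
    (hne : (reach G c.edges.toFinset).Nonempty) :
    (∃ m b, Good G c.edges.toFinset c.support.toFinset m b) ∧
      reach G c.edges.toFinset = Rset G c.edges.toFinset c.support.toFinset := by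
  obtain ⟨t, ht⟩ := hodd
  have key : ∀ x ∈ reach G c.edges.toFinset, ∃ m b u S,
      Good G c.edges.toFinset c.support.toFinset m b ∧
      EvP G m c.support.toFinset b u S ∧ (x ∈ c.support.toFinset ∨ x ∈ S) := by
    rintro x ⟨M, v, c', b, u, p, hM, hE, hc', hb, hp, hx⟩
    obtain ⟨m', h1, h2⟩ := flower_good hM hc' hb hp
    have hsup := cycle_support_eq hc'.1 hcyc hE
    rw [hE, hsup] at h1
    rw [hsup] at h2
    refine ⟨m', b, u, _, h1, h2, ?_⟩
    rcases hx with hx | hx
    · left; rw [← hsup]; simpa using hx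
    · right; simpa using hx
  obtain ⟨x, hx⟩ := hne
  obtain ⟨m, b, u, S, hm, hS, -⟩ := key x hx
  refine ⟨⟨m, b, hm⟩, ?_⟩
  ext y
  constructor
  · intro hy
    obtain ⟨m, b, u, S, hm, hS, hyS⟩ := key y hy
    rcases hyS with h | h
    · exact Or.inl h
    · exact Or.inr ⟨m, b, u, S, hm, hS, h⟩
  · rintro (hy | ⟨m, b, u, S, hm, hS, hyS⟩)
    · obtain ⟨M, p, h1, h2, h3, h4, h5⟩ := good_flower hcyc ht hm hS
      exact ⟨M, _, c, _, _, p, h1, rfl, h2, h3, h4, Or.inl (by simpa using hy)⟩
    · obtain ⟨M, p, h1, h2, h3, h4, h5⟩ := good_flower hcyc ht hm hS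
      exact ⟨M, _, c, _, _, p, h1, rfl, h2, h3, h4, Or.inr ((h5 y).2 hyS)⟩

lemma mem_oddCycles {C : Finset (Sym2 V)} : C ∈ oddCycles G ↔
    ∃ (v : V) (c : G.Walk v v), c.IsCycle ∧ Odd c.length ∧ c.edges.toFinset = C := by
  simp [oddCycles]

/-- In an `R`-disjoint graph, permutations along edges preserve the reach sets. -/
lemma reach_preserved (hG : RDisjoint G) {C : Finset (Sym2 V)} (hC : C ∈ oddCycles G)
    (σ : Equiv.Perm V) (hσ : ∀ v, G.Adj v (σ v)) : ∀ v, (v ∈ reach G C ↔ σ v ∈ reach G C) := by
  have hC0 := hC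
  rw [mem_oddCycles] at hC
  obtain ⟨v0, c, hcyc, hodd, rfl⟩ := hC
  obtain ⟨⟨m, b, hm⟩, hR⟩ := reach_eq hcyc hodd (hG.2.1 _ hC0)
  obtain ⟨t, ht⟩ := hodd
  rw [hR]
  refine preserve hm (fun m b v h1 h2 => rotate_good c hcyc ht m b v h1 h2) ?_ σ hσ
  intro d x hd hdD hxD hdx
  obtain ⟨c', hc', hodd', hdc'⟩ := odd_cycle_of_adj hdD hxD hdx
  have hC' : c'.edges.toFinset ∈ oddCycles G := mem_oddCycles.2 ⟨x, c', hc', hodd', rfl⟩
  by_cases heq : c.edges.toFinset = c'.edges.toFinset
  · have h1 := cycle_support_eq hcyc hc' heq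
    rw [h1]
    exact ⟨by simpa using hdc', by simp⟩
  · exfalso
    have h1 := hG.2.2 _ hC0 _ hC' heq
    rw [Set.disjoint_left] at h1
    refine h1 (a := d) (by rw [hR]; exact hd) ?_
    rw [(reach_eq hc' hodd' (hG.2.1 _ hC')).2]
    exact Or.inl (by simpa using hdc')

/-- The adjacency matrix of an induced subgraph is a principal submatrix. -/
lemma adj_induce (s : Set V) : (G.induce s).adjMatrix ℝ =
    (G.adjMatrix ℝ).submatrix (Subtype.val : {v // v ∈ s} → V) (Subtype.val : {v // v ∈ s} → V) := by
  ext i j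
  simp [SimpleGraph.adjMatrix_apply]

/-- **The determinant of an `R`-disjoint graph factors along its flower decomposition.** -/
theorem result {V : Type*} [Fintype V] (G : SimpleGraph V) (hG : RDisjoint G) :
    (G.adjMatrix ℝ).det = ((G.induce (rest G)).adjMatrix ℝ).det *
      ∏ C ∈ oddCycles G, ((G.induce (reach G C)).adjMatrix ℝ).det := by
  have h1 := det_factor (ι := {C // C ∈ oddCycles G}) (G.adjMatrix ℝ) (fun C => reach G C.1)
    (fun C C' hne => hG.2.2 C.1 C.2 C'.1 C'.2 (fun h => hne (Subtype.ext h)))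
    (fun σ hσ C => reach_preserved hG C.2 σ (fun v => by
      have h2 := hσ v
      rw [SimpleGraph.adjMatrix_apply] at h2
      by_contra h3
      exact h2 (if_neg (fun h4 => h3 h4.symm))))
  rw [h1]
  refine congrArg₂ (· * ·) ?_ ?_
  · rw [adj_induce]
    exact det_subset_congr _ (fun v => by simp [rest])
  · rw [← Finset.prod_coe_sort (oddCycles G)]
    refine Finset.prod_congr rfl (fun C _ => ?_)
    rw [adj_induce]

end Pool.Agent.Results.MP_079569_co.FlowerDeterminant
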